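import Mathlib
import Pool.Agent.W23.PP.Fin9

/-!
`N - G(n)` almost prime for the expected proportion of the elements `n` of an arbitrary dense subset
of the set of the `n ≤ X` for which `F(n)` has no small prime factor, for all but few `N`.
-/

set_option autoImplicit false

namespace Pool.Agent.Results.MP_0bf1d2_nt.DenseRoughArguments

open Finset Polynomial

open Classical in
/-- the number of residues `a` modulo `p` with `p ∣ P(a)` -/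
noncomputable def nu (P : ℤ[X]) (p : ℕ) : ℕ :=
  ((range p).filter (fun a : ℕ => (p : ℤ) ∣ P.eval (a : ℤ))).card

open Classical in
/-- `V_P = ∏ (1 - ν_P(p)/p)` over the primes `log X ≤ p ≤ X` -/
noncomputable def V (P : ℤ[X]) (X : ℕ) : ℝ :=
  ∏ p ∈ (Icc 1 X).filter (fun p : ℕ => p.Prime ∧ Real.log X ≤ (p : ℝ)), (1 - (nu P p : ℝ) / p)

open Classical in
/-- `W_P = ∏ (1 - ν_P(p)/p)` over the primes `p ≤ X`, `p < X^κ` -/
noncomputable def W (P : ℤ[X]) (X : ℕ) (κ : ℝ) : ℝ :=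
  ∏ p ∈ (Icc 1 X).filter (fun p : ℕ => p.Prime ∧ (p : ℝ) < (X : ℝ) ^ κ), (1 - (nu P p : ℝ) / p)

/-- all prime factors of `v` are at least `X^κ` -/
def Rough (X : ℕ) (κ : ℝ) (v : ℤ) : Prop :=
  ∀ p : ℕ, p.Prime → (p : ℝ) < (X : ℝ) ^ κ → ¬ (p : ℤ) ∣ v

/-- `F` and `G` have no common factor in `ℚ[x]` -/
def Coprime (F G : ℤ[X]) : Prop :=
  IsCoprime (F.map (Int.castRingHom ℚ)) (G.map (Int.castRingHom ℚ))

/-- `|v| = m s`, `1 ≤ m ≤ (log X)^t`, and `s > 1` is a product of at most `r` primes, all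
`≥ X^(1/r)` -/
def AlmostPrime (X t r : ℕ) (v : ℤ) : Prop :=
  ∃ m s : ℕ, v.natAbs = m * s ∧ 1 ≤ m ∧ (m : ℝ) ≤ Real.log X ^ t ∧ 1 < s ∧
    s.primeFactorsList.length ≤ r ∧ ∀ q ∈ s.primeFactors, (X : ℝ) ^ (1 / r : ℝ) ≤ q

open Classical in
/-- the `n ∈ A` for which `P(n)` is almost prime -/
noncomputable def Good (A : Finset ℕ) (X t r : ℕ) (P : ℤ[X]) : Finset ℕ :=
  A.filter (fun n : ℕ => AlmostPrime X t r (P.eval (n : ℤ)))

theorem V_eq (P : ℤ[X]) (X : ℕ) :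
    V P X = Pool.Agent.W23.PP.VP (fun n => P.eval n) (Pool.Agent.W23.PP.PF X) := rfl

theorem W_eq (P : ℤ[X]) {X : ℕ} (hX : 2 ≤ X) (κ : ℝ) :
    W P X κ = Pool.Agent.W23.PP.VP (fun n => P.eval n) (Pool.Agent.W23.PP.P0 X κ) := by
  classical
  unfold W Pool.Agent.W23.PP.VP Pool.Agent.W23.PP.P0
  apply Finset.prod_congr
  · ext p
    rw [mem_filter, mem_filter]
    constructor
    · rintro ⟨h1, h2, h3⟩
      exact ⟨h1, h2, (Pool.Agent.W23.DC.tt_lt_iff hX h2.pos κ).2 h3⟩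
    · rintro ⟨h1, h2, h3⟩
      exact ⟨h1, h2, (Pool.Agent.W23.DC.tt_lt_iff hX h2.pos κ).1 h3⟩
  · intro p _
    rfl

theorem rough_iff {X : ℕ} (hX : 2 ≤ X) {κ : ℝ} {v : ℤ} (h : Rough X κ v) :
    Pool.Agent.W23.PL.xx (Pool.Agent.W23.PP.P0 X κ) v = 1 := by
  classical
  unfold Pool.Agent.W23.PL.xx
  rw [if_pos]
  intro p hp
  unfold Pool.Agent.W23.PP.P0 at hp
  rw [mem_filter] at hp
  exact h p hp.2.1 ((Pool.Agent.W23.DC.tt_lt_iff hX hp.2.1.pos κ).1 hp.2.2)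

theorem good_eq (A : Finset ℕ) (X t r : ℕ) (P : ℤ[X]) :
    Good A X t r P = Pool.Agent.W23.PP.Alm A X t r {P} := by
  classical
  unfold Good Pool.Agent.W23.PP.Alm
  apply Finset.filter_congr
  intro n _
  constructor
  · intro h F hF
    rw [mem_singleton] at hF
    subst hF
    exact h
  · intro h
    exact h P (mem_singleton_self _)

theorem result (d D M : ℕ) (hd : 1 ≤ d) :
    -- dense subsets: few exceptional `N`
    (∃ r : ℕ, 1 ≤ r ∧ ∀ κ : ℝ, 0 < κ → κ ≤ 1 → ∀ δ : ℝ, 0 < δ →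
      ∃ (c K : ℝ) (t X₀ : ℕ), 0 < c ∧ 0 < K ∧ ∀ X : ℕ, X₀ ≤ X →
      ∀ F G : ℤ[X], F.IsPrimitive → F.natDegree ≤ D → (∀ i, |(F.coeff i : ℝ)| ≤ (X : ℝ) ^ M) →
      G.natDegree = d → (∀ i, |(G.coeff i : ℝ)| ≤ (X : ℝ) ^ M) →
      ∀ A : Finset ℕ, (∀ n ∈ A, (1 ≤ n ∧ n ≤ X) ∧ Rough X κ (F.eval (n : ℤ))) →
      δ * (W F X κ * X) ≤ A.card →
      ∀ E : Finset ℤ, (∀ N ∈ E, |(N : ℝ)| ≤ (X : ℝ) ^ M ∧ (C N - G).IsPrimitive ∧
        Coprime F (C N - G) ∧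
        ((Good A X t r (C N - G)).card : ℝ) < c * V (C N - G) X * A.card) →
      ∑ N ∈ E, V (C N - G) X ≤ K ∧
        (E.card : ℝ) ≤ K * (Real.log X / Real.log (Real.log X)) ^ d) ∧
    -- the upper bound of the same order, and the bound for the exceptional `N` is sharp
    (∀ t r : ℕ, 1 ≤ r → ∀ κ : ℝ, 0 < κ → κ ≤ 1 →
      ∃ (K : ℝ) (X₀ : ℕ), 0 < K ∧ ∀ X : ℕ, X₀ ≤ X →
      ∀ F G : ℤ[X], F.IsPrimitive → F.natDegree ≤ D → (∀ i, |(F.coeff i : ℝ)| ≤ (X : ℝ) ^ M) →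
      G.natDegree = d → (∀ i, |(G.coeff i : ℝ)| ≤ (X : ℝ) ^ M) →
      ∀ A : Finset ℕ, (∀ n ∈ A, (1 ≤ n ∧ n ≤ X) ∧ Rough X κ (F.eval (n : ℤ))) →
      (∀ N : ℤ, |(N : ℝ)| ≤ (X : ℝ) ^ M → (C N - G).IsPrimitive → Coprime F (C N - G) →
        ((Good A X t r (C N - G)).card : ℝ) ≤ K * V (C N - G) X * (W F X κ * X)) ∧
      ∀ E : Finset ℤ, (∀ N ∈ E, |(N : ℝ)| ≤ (X : ℝ) ^ M ∧ (C N - G).IsPrimitive ∧
        Coprime F (C N - G)) →
      ∃ A' : Finset ℕ, A' ⊆ A ∧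
        (A.card : ℝ) - A'.card ≤ K * (∑ N ∈ E, V (C N - G) X) * (W F X κ * X) ∧
        ∀ N ∈ E, Good A' X t r (C N - G) = ∅) := by
  refine ⟨?_, fun t r hr κ hκ0 hκ1 => ?_⟩
  · obtain ⟨r, hr, H⟩ := Pool.Agent.W23.PP.shiftMain d D M hd
    refine ⟨r, hr, fun κ hκ0 hκ1 δ hδ => ?_⟩
    obtain ⟨c, K, t, X₀, hc, hK, H1⟩ := H κ hκ0 hκ1 δ hδ
    refine ⟨c, K, t, max X₀ 2, hc, hK, ?_⟩
    intro X hX F G hFp hFd hFh hGd hGh A hA hAc E hE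
    have hX1 : X₀ ≤ X := (le_max_left _ _).trans hX
    have hX2 : 2 ≤ X := (le_max_right _ _).trans hX
    refine H1 X hX1 F G hFp hFd hFh hGd hGh A (fun n hn => ⟨(hA n hn).1, rough_iff hX2 (hA n hn).2⟩)
      (by rw [← W_eq F hX2]; exact hAc) E (fun N hN => ?_)
    obtain ⟨h1, h2, h3, h4⟩ := hE N hN
    rw [good_eq] at h4
    exact ⟨h1, h2, h3, h4⟩
  · obtain ⟨K, X₀, hK, H⟩ := Pool.Agent.W23.PP.shiftSharp d D M hd t r hr κ hκ0 hκ1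
    refine ⟨K, max X₀ 2, hK, ?_⟩
    intro X hX F G hFp hFd hFh hGd hGh A hA
    have hX1 : X₀ ≤ X := (le_max_left _ _).trans hX
    have hX2 : 2 ≤ X := (le_max_right _ _).trans hX
    obtain ⟨K1, K2⟩ := H X hX1 F G hFp hFd hFh hGd hGh A
      (fun n hn => ⟨(hA n hn).1, rough_iff hX2 (hA n hn).2⟩)
    rw [← W_eq F hX2] at K1 K2
    refine ⟨fun N h1 h2 h3 => ?_, fun E hE => ?_⟩
    · rw [good_eq]
      exact K1 N h1 h2 h3
    · obtain ⟨A', h1, h2, h3⟩ := K2 E hE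
      refine ⟨A', h1, h2, fun N hN => ?_⟩
      rw [good_eq]
      exact h3 N hN

end Pool.Agent.Results.MP_0bf1d2_nt.DenseRoughArguments
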