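import Pool.Agent.W218.PG.MainP

set_option autoImplicit false

/-!
Schinzel's Goldbach-type hypothesis for `n, N_1 - G_1(n), ..., N_k - G_k(n)`, for a positive proportion of the
`(N_1, ..., N_k)` and small prime arguments `n = q ≤ x`, where `x` may be as small as a power of `log N`.
-/

namespace Pool.Agent.Results.MP_0bf1d2_nt.SmallPrimeArguments

open Finset Polynomial

/-- the number of primes `q ≤ x` such that all `N_i - G_i(q)` are (positive) primes -/
def Q {k : ℕ} (G : Fin k → ℤ[X]) (N : Fin k → ℕ) (x : ℕ) : ℕ :=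
  ((Icc 1 x).filter (fun q : ℕ => q.Prime ∧ ∀ i, ((N i : ℤ) - (G i).eval (q : ℤ)).toNat.Prime)).card

/-- the number of residues `n` mod `p` with `n (N_1 - G_1(n)) ... (N_k - G_k(n)) ≡ 0` -/
def omega {k : ℕ} (G : Fin k → ℤ[X]) (N : Fin k → ℕ) (p : ℕ) : ℕ :=
  ((range p).filter (fun n : ℕ => (p : ℤ) ∣ n * ∏ i, ((N i : ℤ) - (G i).eval (n : ℤ)))).card

/-- Schinzel's product over the primes `p ≤ z` -/
noncomputable def S {k : ℕ} (G : Fin k → ℤ[X]) (N : Fin k → ℕ) (z : ℕ) : ℝ :=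
  ∏ p ∈ (range (z + 1)).filter Nat.Prime, (((1 - 1 / (p : ℝ)) ^ (k + 1))⁻¹ * (1 - (omega G N p : ℝ) / p))

open Classical in
theorem result (k : ℕ) (hk : 1 ≤ k) (G : Fin k → ℤ[X]) (hG : ∀ i, 1 ≤ (G i).natDegree) (c : ℝ) (hc : 0 < c) (θ : ℝ)
    (hθ : θ < 1) : ∃ κ : ℝ, 0 < κ ∧ ∀ z : ℕ, ∃ M₀ : ℕ, ∀ M : ℕ, M₀ ≤ M →
      ∀ x : ℕ, x ≤ M → c * Real.log M ^ k ≤ x / Real.log x →
      (∀ i, ∀ n : ℕ, 1 ≤ n → n ≤ x → |(((G i).eval (n : ℤ) : ℤ) : ℝ)| ≤ κ * M) →
      κ * M ^ k ≤ (((Fintype.piFinset (fun _ : Fin k => Ioc M (2 * M))).filter (fun N =>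
        θ * S G N z * (x / (Real.log x * Real.log M ^ k)) ≤ Q G N x ∧
        κ * (x / (Real.log x * Real.log M ^ k)) ≤ Q G N x)).card : ℝ) := by
  obtain ⟨κ, hκ, h⟩ := Pool.Agent.W218.PG.mainP k hk (fun i => -(G i))
    (fun i => by rw [natDegree_neg]; exact hG i) c hc θ hθ
  refine ⟨κ, hκ, fun z => ?_⟩
  obtain ⟨x0, h⟩ := h z
  refine ⟨⌈Real.exp (1 + (x0 + 3 : ℕ) / c)⌉₊, fun A hA x hxA hcx hGA => ?_⟩
  have hA1 : Real.exp (1 + (x0 + 3 : ℕ) / c) ≤ A := (Nat.le_ceil _).trans (by exact_mod_cast hA)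
  have hA0 : (0 : ℝ) < A := lt_of_lt_of_le (Real.exp_pos _) hA1
  have hlA : 1 + ((x0 + 3 : ℕ) : ℝ) / c ≤ Real.log A := by
    rwa [Real.le_log_iff_exp_le hA0]
  have hlA1 : 1 ≤ Real.log A := by
    have : (0 : ℝ) ≤ ((x0 + 3 : ℕ) : ℝ) / c := by positivity
    linarith
  have hX : ((x0 + 3 : ℕ) : ℝ) ≤ x / Real.log x := by
    refine le_trans ?_ hcx
    have h1 : ((x0 + 3 : ℕ) : ℝ) / c ≤ Real.log A ^ k := by
      calc ((x0 + 3 : ℕ) : ℝ) / c ≤ Real.log A := by linarith
        _ ≤ Real.log A ^ k := le_self_pow₀ hlA1 (by omega)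
    rw [div_le_iff₀ hc] at h1
    linarith
  have hX3 : (3 : ℝ) ≤ x / Real.log x := by
    push_cast at hX
    have : (0 : ℝ) ≤ x0 := Nat.cast_nonneg _
    linarith
  have hx3 : 3 ≤ x := by
    by_contra hcon
    have hx2 : x ≤ 2 := by omega
    have h2 : (x : ℝ) / Real.log x < 3 := by
      interval_cases x
      · simp
      · simp
      · have h3 := Real.log_two_gt_d9
        rw [div_lt_iff₀ (by push_cast; linarith)]
        push_cast
        linarith
    linarith
  have hx3r : (3 : ℝ) ≤ x := by exact_mod_cast hx3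
  have hx0 : (0 : ℝ) < x := by linarith
  have hlx1 : 1 ≤ Real.log x := by
    rw [Real.le_log_iff_exp_le hx0]
    have := Real.exp_one_lt_d9
    linarith
  have hXx : (x : ℝ) / Real.log x ≤ x := by
    rw [div_le_iff₀ (by linarith)]
    nlinarith
  have hx1 : x0 ≤ x := by
    have : ((x0 + 3 : ℕ) : ℝ) ≤ x := hX.trans hXx
    have h2 : x0 + 3 ≤ x := by exact_mod_cast this
    omega
  have h1 := h x hx1 A hxA hcx (by
    intro i t ht1 ht2
    rw [eval_neg]
    push_cast
    rw [abs_neg]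
    exact hGA i t ht1 ht2)
  refine h1.trans ?_
  have hsub : (Fintype.piFinset (fun _ : Fin k => Ioc A (2 * A))).filter (fun b =>
      θ * Pool.Agent.W218.PG.EP (fun i => -(G i)) b z * (x / (Real.log x * Real.log A ^ k)) ≤
        Pool.Agent.W218.PG.cntP (fun i => -(G i)) b x ∧
      κ * (x / (Real.log x * Real.log A ^ k)) ≤ Pool.Agent.W218.PG.cntP (fun i => -(G i)) b x) ⊆
      (Fintype.piFinset (fun _ : Fin k => Ioc A (2 * A))).filter (fun N =>
        θ * S G N z * (x / (Real.log x * Real.log A ^ k)) ≤ Q G N x ∧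
        κ * (x / (Real.log x * Real.log A ^ k)) ≤ Q G N x) := by
    intro b hb
    rw [mem_filter] at hb ⊢
    obtain ⟨hbI, h2, h3⟩ := hb
    have hcnt : (Pool.Agent.W218.PG.cntP (fun i => -(G i)) b x : ℝ) ≤ Q G b x := by
      have : Pool.Agent.W218.PG.cntP (fun i => -(G i)) b x ≤ Q G b x := by
        unfold Pool.Agent.W218.PG.cntP Q
        apply card_le_card
        intro t ht
        rw [mem_filter] at ht ⊢
        refine ⟨ht.1, ht.2.1, fun i => ?_⟩
        have := ht.2.2 i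
        rw [eval_neg, neg_add_eq_sub] at this
        exact this
      exact_mod_cast this
    have hnu : ∀ p ∈ (range (z + 1)).filter Nat.Prime, Pool.Agent.W218.PG.wP
        (Pool.Agent.W218.PG.Vf (fun i => -(G i)) b) p = omega G b p := by
      intro p hp
      have hpp : p.Prime := (mem_filter.1 hp).2
      have hpi : Prime (p : ℤ) := Nat.prime_iff_prime_int.1 hpp
      unfold Pool.Agent.W218.PG.wP omega Pool.Agent.W218.PG.Vf
      congr 1
      ext r
      simp only [mem_filter]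
      apply and_congr_right
      intro _
      rw [hpi.dvd_mul, hpi.dvd_finset_prod_iff]
      apply or_congr
      · exact Int.natCast_dvd_natCast.symm
      · constructor
        · rintro ⟨i, hi⟩
          refine ⟨i, mem_univ i, ?_⟩
          rwa [eval_neg, neg_add_eq_sub] at hi
        · rintro ⟨i, _, hi⟩
          refine ⟨i, ?_⟩
          rw [eval_neg, neg_add_eq_sub]; exact hi
    have hE : Pool.Agent.W218.PG.EP (fun i => -(G i)) b z = S G b z := by
      unfold Pool.Agent.W218.PG.EP S Pool.Agent.W218.PF.PS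
      apply prod_congr rfl
      intro p hp
      rw [hnu p hp]
    rw [hE] at h2
    exact ⟨hbI, h2.trans hcnt, h3.trans hcnt⟩
  exact_mod_cast card_le_card hsub

end Pool.Agent.Results.MP_0bf1d2_nt.SmallPrimeArguments
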